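import Pool.Agent.H84.GL.Basic

open MeasureTheory ProbabilityTheory
open scoped ENNReal

namespace Pool.Agent.H26.GL

open Pool.Agent.H99.NS Pool.Agent.H84.GL

theorem geo_singleton (a : ℝ) (h0 : 0 ≤ a) (h1 : a < 1) (k : ℕ) :
    geo a {k} = ENNReal.ofReal ((1 - a) * a ^ k) := by
  unfold geo
  rw [if_pos ⟨h0, h1⟩, Measure.sum_apply _ (measurableSet_singleton k), tsum_eq_single k]
  · simp
  · intro b hb
    simp only [Measure.smul_apply, smul_eq_mul]
    rw [Measure.dirac_apply' _ (measurableSet_singleton k)]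
    simp [hb]

def cell (x : ℕ × ℕ × ℕ) : ℕ × ℕ × ℕ :=
  (x.2.2 + (x.1 - x.2.1), x.2.2 + (x.2.1 - x.1), min x.1 x.2.1)

theorem cell_cell (x : ℕ × ℕ × ℕ) : cell (cell x) = x := by
  obtain ⟨i, j, w⟩ := x
  simp only [cell, Prod.mk.injEq]
  refine ⟨by omega, by omega, by omega⟩

theorem mass (α β : ℝ) (ha : 0 < α) (ha1 : α < 1) (hb : 0 < β) (hb1 : β < 1) (i j w : ℕ) :
    ((geo α).prod ((geo β).prod (geo (α * β)))) {(i, j, w)} =
      ENNReal.ofReal (((1 - α) * (1 - β) * (1 - α * β)) * (α ^ i * β ^ j * (α * β) ^ w)) := by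
  have hab : α * β < 1 := by nlinarith
  have e : ({(i, j, w)} : Set (ℕ × ℕ × ℕ)) = {i} ×ˢ ({j} ×ˢ {w}) := by
    ext ⟨a, b, c⟩; simp
  rw [e, Measure.prod_prod, Measure.prod_prod, geo_singleton α ha.le ha1,
    geo_singleton β hb.le hb1, geo_singleton (α * β) (by positivity) hab,
    ← ENNReal.ofReal_mul, ← ENNReal.ofReal_mul]
  · congr 1; ring
  · exact mul_nonneg (by linarith) (by positivity)
  · exact mul_nonneg (by linarith) (by positivity)

theorem pf_CEL : T_CEL := by
  intro α β ha ha1 hb hb1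
  apply Measure.ext_of_singleton
  rintro ⟨i, j, w⟩
  have hm : Measurable cell := measurable_of_countable _
  have hpre : cell ⁻¹' {(i, j, w)} = {cell (i, j, w)} := by
    ext x
    simp only [Set.mem_preimage, Set.mem_singleton_iff]
    constructor
    · intro h; rw [← h, cell_cell]
    · intro h; rw [h, cell_cell]
  change (Measure.map cell _) _ = _
  rw [Measure.map_apply hm (measurableSet_singleton _), hpre]
  have hc : cell (i, j, w) = (w + (i - j), w + (j - i), min i j) := rfl
  rw [hc, mass α β ha ha1 hb hb1, mass α β ha ha1 hb hb1]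
  congr 2
  rcases le_total i j with h | h
  · obtain ⟨d, rfl⟩ := Nat.exists_eq_add_of_le h
    have h1 : i - (i + d) = 0 := by omega
    have h2 : i + d - i = d := by omega
    have h3 : min i (i + d) = i := by omega
    rw [h1, h2, h3, mul_pow, mul_pow, pow_add, pow_add, pow_add]
    ring
  · obtain ⟨d, rfl⟩ := Nat.exists_eq_add_of_le h
    have h1 : j - (j + d) = 0 := by omega
    have h2 : j + d - j = d := by omega
    have h3 : min (j + d) j = j := by omega
    rw [h1, h2, h3, mul_pow, mul_pow, pow_add, pow_add, pow_add]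
    ring

end Pool.Agent.H26.GL
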