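import Pool.Agent.H84.GL.Basic

open MeasureTheory ProbabilityTheory
open scoped ENNReal

namespace Pool.Agent.H26.GL

open Pool.Agent.H99.NS Pool.Agent.H84.GL

/-- Splitting off the first coordinate under an integral. -/
theorem sh1 (h1 : T_SH1) (a : ℝ) (G : ℕ × (ℕ → ℕ) → ℝ≥0∞) (hG : Measurable G) :
    ∫⁻ x, G (x 0, fun n => x (n+1)) ∂(P1 a) = ∫⁻ k, ∫⁻ y, G (k, y) ∂(P1 a) ∂(geo a) := by
  have hm : Measurable (fun x : ℕ → ℕ => (x 0, fun n => x (n+1))) := by fun_prop
  rw [← lintegral_prod _ hG.aemeasurable, ← h1 a, lintegral_map hG hm]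

theorem hst_succ (H : ℕ) (V W : ℕ → ℕ) (j : ℕ) :
    hst H V W (j+1) = hst (W 0 + (H - V 0)) (fun n => V (n+1)) (fun n => W (n+1)) j := by
  induction j with
  | zero => simp [hst]
  | succ j ih => rw [hst, ih]; rfl

theorem vst_zero (H : ℕ) (V W : ℕ → ℕ) : vst H V W 0 = W 0 + (V 0 - H) := rfl

theorem vst_succ (H : ℕ) (V W : ℕ → ℕ) (j : ℕ) :
    vst H V W (j+1) = vst (W 0 + (H - V 0)) (fun n => V (n+1)) (fun n => W (n+1)) j := by
  unfold vst; rw [hst_succ]

theorem measurable_vstj (j : ℕ) :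
    Measurable (fun x : ℕ × (ℕ → ℕ) × (ℕ → ℕ) => vst x.1 x.2.1 x.2.2 j) :=
  (measurable_pi_apply j).comp measurable_vst

/-- Law of the increments: product functions. -/
theorem prodform (h_CEL : T_CEL) (h_SH1 : T_SH1) (α β : ℝ) (ha : 0 < α) (ha1 : α < 1)
    (hb : 0 < β) (hb1 : β < 1) (n : ℕ) : ∀ phi : ℕ → ℕ → ℝ≥0∞,
    ∫⁻ H, ∫⁻ V, ∫⁻ W, ∏ j ∈ Finset.range n, phi j (vst H V W j) ∂(P1 (α * β)) ∂(P1 β) ∂(geo α) =
      ∏ j ∈ Finset.range n, ∫⁻ k, phi j k ∂(geo β) := by
  induction n with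
  | zero => intro phi; simp
  | succ n ih =>
    intro phi
    set Q : ℕ × (ℕ → ℕ) × (ℕ → ℕ) → ℝ≥0∞ :=
      fun x => ∏ j ∈ Finset.range n, phi (j+1) (vst x.1 x.2.1 x.2.2 j) with hQ
    have hQm : Measurable Q := by
      refine Finset.measurable_prod _ fun j _ => ?_
      exact (measurable_nat (phi (j+1))).comp (measurable_vstj j)
    set Ψ : ℕ → ℝ≥0∞ := fun H => ∫⁻ V, ∫⁻ W, Q (H, V, W) ∂(P1 (α * β)) ∂(P1 β) with hΨ
    have e1 : ∀ H V W, ∏ j ∈ Finset.range (n+1), phi j (vst H V W j) =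
        phi 0 (W 0 + (V 0 - H)) *
          Q (W 0 + (H - V 0), (fun n => V (n+1)), (fun n => W (n+1))) := by
      intro H V W
      rw [Finset.prod_range_succ', mul_comm, vst_zero]
      congr 1
      simp only [hQ]
      exact Finset.prod_congr rfl fun j _ => by rw [vst_succ]
    have e2 : ∀ H V, ∫⁻ W, ∏ j ∈ Finset.range (n+1), phi j (vst H V W j) ∂(P1 (α * β)) =
        ∫⁻ w, ∫⁻ W, phi 0 (w + (V 0 - H)) * Q (w + (H - V 0), (fun n => V (n+1)), W)
          ∂(P1 (α * β)) ∂(geo (α * β)) := by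
      intro H V
      simp only [e1]
      refine sh1 h_SH1 (α * β) (fun x => phi 0 (x.1 + (V 0 - H)) *
        Q (x.1 + (H - V 0), (fun n => V (n+1)), x.2)) ?_
      refine Measurable.mul ?_ ?_
      · exact (measurable_nat (fun w => phi 0 (w + (V 0 - H)))).comp measurable_fst
      · refine hQm.comp (Measurable.prodMk ?_ (Measurable.prodMk measurable_const measurable_snd))
        exact (measurable_nat (fun w => w + (H - V 0))).comp measurable_fst
    have e3 : ∀ H, ∫⁻ V, ∫⁻ W, ∏ j ∈ Finset.range (n+1), phi j (vst H V W j)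
          ∂(P1 (α * β)) ∂(P1 β) =
        ∫⁻ v, ∫⁻ w, phi 0 (w + (v - H)) * Ψ (w + (H - v)) ∂(geo (α * β)) ∂(geo β) := by
      intro H
      have hin : Measurable (fun y : ((ℕ × (ℕ → ℕ)) × ℕ) × (ℕ → ℕ) =>
          phi 0 (y.1.2 + (y.1.1.1 - H)) * Q (y.1.2 + (H - y.1.1.1), y.1.1.2, y.2)) := by
        refine Measurable.mul ?_ ?_
        · exact (measurable_nat (phi 0)).comp (by fun_prop)
        · exact hQm.comp (by fun_prop)
      have hin2 : Measurable (fun y : (ℕ × (ℕ → ℕ)) × ℕ =>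
          ∫⁻ W, phi 0 (y.2 + (y.1.1 - H)) * Q (y.2 + (H - y.1.1), y.1.2, W) ∂(P1 (α * β))) :=
        hin.lintegral_prod_right'
      have hin3 : Measurable (fun y : ℕ × (ℕ → ℕ) =>
          ∫⁻ w, ∫⁻ W, phi 0 (w + (y.1 - H)) * Q (w + (H - y.1), y.2, W)
            ∂(P1 (α * β)) ∂(geo (α * β))) :=
        hin2.lintegral_prod_right'
      simp only [e2]
      rw [sh1 h_SH1 β (fun y => ∫⁻ w, ∫⁻ W, phi 0 (w + (y.1 - H)) * Q (w + (H - y.1), y.2, W)
            ∂(P1 (α * β)) ∂(geo (α * β))) hin3]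
      refine lintegral_congr fun v => ?_
      rw [lintegral_lintegral_swap]
      · refine lintegral_congr fun w => ?_
        have hm1 : ∀ V, Measurable (fun W => Q (w + (H - v), V, W)) := fun V =>
          hQm.comp (by fun_prop)
        have hm2 : Measurable (fun V => ∫⁻ W, Q (w + (H - v), V, W) ∂(P1 (α * β))) := by
          have : Measurable (fun y : (ℕ → ℕ) × (ℕ → ℕ) => Q (w + (H - v), y.1, y.2)) :=
            hQm.comp (by fun_prop)
          exact this.lintegral_prod_right'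
        simp only [hΨ]
        rw [← lintegral_const_mul _ hm2]
        refine lintegral_congr fun V => ?_
        rw [lintegral_const_mul _ (hm1 V)]
      · have : Measurable (fun y : (ℕ → ℕ) × ℕ =>
            ∫⁻ W, phi 0 (y.2 + (v - H)) * Q (y.2 + (H - v), y.1, W) ∂(P1 (α * β))) :=
          hin2.comp (g := fun y : (ℕ × (ℕ → ℕ)) × ℕ =>
            ∫⁻ W, phi 0 (y.2 + (y.1.1 - H)) * Q (y.2 + (H - y.1.1), y.1.2, W) ∂(P1 (α * β)))
            (f := fun y : (ℕ → ℕ) × ℕ => ((v, y.1), y.2)) (by fun_prop)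
        exact this.aemeasurable
    simp only [e3]
    have hc := h_CEL α β ha ha1 hb hb1
    set G : ℕ × ℕ × ℕ → ℝ≥0∞ := fun y => phi 0 y.2.1 * Ψ y.1 with hG
    have hGm : Measurable G := measurable_of_countable _
    have hcm : Measurable (fun x : ℕ × ℕ × ℕ =>
      (x.2.2 + (x.1 - x.2.1), x.2.2 + (x.2.1 - x.1), min x.1 x.2.1)) := measurable_of_countable _
    have e4 : ∫⁻ H, ∫⁻ v, ∫⁻ w, phi 0 (w + (v - H)) * Ψ (w + (H - v))
          ∂(geo (α * β)) ∂(geo β) ∂(geo α) =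
        ∫⁻ x, G x ∂((geo α).prod ((geo β).prod (geo (α * β)))) := by
      conv_rhs => rw [← hc]
      rw [lintegral_map hGm hcm, lintegral_prod _ (measurable_of_countable _).aemeasurable]
      refine lintegral_congr fun H => ?_
      rw [lintegral_prod _ (measurable_of_countable _).aemeasurable]
    rw [e4, lintegral_prod _ hGm.aemeasurable]
    have e5 : ∀ H, ∫⁻ y, G (H, y) ∂((geo β).prod (geo (α * β))) =
        (∫⁻ k, phi 0 k ∂(geo β)) * Ψ H := by
      intro H
      rw [lintegral_prod _ (measurable_of_countable _).aemeasurable]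
      simp only [hG, lintegral_const, measure_univ, mul_one]
      rw [lintegral_mul_const _ (measurable_nat _)]
    simp only [e5]
    rw [lintegral_const_mul _ (measurable_nat _), Finset.prod_range_succ', mul_comm]
    congr 1
    exact ih (fun j => phi (j+1))

theorem pf_COL (h_CEL : T_CEL) (h_SH1 : T_SH1) : T_COL := by
  intro α β ha ha1 hb hb1
  conv_rhs => rw [P1]
  apply Measure.eq_infinitePi
  intro s t ht
  obtain ⟨n, hn⟩ : ∃ n, ∀ i ∈ s, i < n := ⟨s.sup id + 1, fun i hi =>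
    Nat.lt_succ_of_le (Finset.le_sup (f := id) hi)⟩
  classical
  set phi : ℕ → ℕ → ℝ≥0∞ := fun j k => if j ∈ s then (t j).indicator 1 k else 1 with hphi
  have hmeas : MeasurableSet (Set.pi (s : Set ℕ) t) :=
    MeasurableSet.pi s.countable_toSet fun i _ => ht i
  have hind : ∀ x : ℕ → ℕ, (Set.pi (s : Set ℕ) t).indicator (1 : (ℕ → ℕ) → ℝ≥0∞) x =
      ∏ j ∈ Finset.range n, phi j (x j) := by
    intro x
    by_cases hx : x ∈ Set.pi (s : Set ℕ) t
    · rw [Set.indicator_of_mem hx, Pi.one_apply]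
      symm
      apply Finset.prod_eq_one
      intro j _
      simp only [hphi]
      split_ifs with hj
      · rw [Set.indicator_of_mem (hx j hj), Pi.one_apply]
      · rfl
    · rw [Set.indicator_of_notMem hx]
      symm
      rw [Set.mem_pi] at hx
      push Not at hx
      obtain ⟨j, hj, hxj⟩ := hx
      apply Finset.prod_eq_zero (Finset.mem_range.2 (hn j hj))
      simp only [hphi]
      rw [if_pos (by exact_mod_cast hj), Set.indicator_of_notMem hxj]
  rw [← lintegral_indicator_one hmeas, lintegral_map (measurable_one.indicator hmeas) measurable_vst]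
  simp only [hind]
  have hpm : Measurable (fun x : ℕ × (ℕ → ℕ) × (ℕ → ℕ) =>
      ∏ j ∈ Finset.range n, phi j (vst x.1 x.2.1 x.2.2 j)) :=
    Finset.measurable_prod _ fun j _ => (measurable_nat (phi j)).comp (measurable_vstj j)
  rw [lintegral_prod _ hpm.aemeasurable]
  have e6 : ∀ H, ∫⁻ y : (ℕ → ℕ) × (ℕ → ℕ), ∏ j ∈ Finset.range n, phi j (vst H y.1 y.2 j)
        ∂((P1 β).prod (P1 (α * β))) =
      ∫⁻ V, ∫⁻ W, ∏ j ∈ Finset.range n, phi j (vst H V W j) ∂(P1 (α * β)) ∂(P1 β) := by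
    intro H
    exact lintegral_prod _ (hpm.comp (g := fun x : ℕ × (ℕ → ℕ) × (ℕ → ℕ) =>
      ∏ j ∈ Finset.range n, phi j (vst x.1 x.2.1 x.2.2 j))
      (f := fun y : (ℕ → ℕ) × (ℕ → ℕ) => (H, y)) (by fun_prop)).aemeasurable
  simp only [e6]
  rw [prodform h_CEL h_SH1 α β ha ha1 hb hb1 n phi]
  have e7 : ∀ j, ∫⁻ k, phi j k ∂(geo β) = if j ∈ s then geo β (t j) else 1 := by
    intro j
    simp only [hphi]
    split_ifs with hj
    · exact lintegral_indicator_one (ht j)
    · simp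
  simp only [e7]
  rw [Finset.prod_ite, Finset.prod_const_one, mul_one]
  apply Finset.prod_congr _ fun _ _ => rfl
  ext j
  simp only [Finset.mem_filter, Finset.mem_range]
  exact ⟨fun h => h.2, fun h => ⟨hn j h, h⟩⟩

end Pool.Agent.H26.GL
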