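import Pool.Agent.H26.GL.COL

open MeasureTheory ProbabilityTheory
open scoped ENNReal

namespace Pool.Agent.H26.GL

open Pool.Agent.H99.NS Pool.Agent.H84.GL

/-- Splitting off the first column under an integral. -/
theorem sh2 (h2 : T_SH2) (a : ℝ) (G : (ℕ → ℕ) × (ℕ × ℕ → ℕ) → ℝ≥0∞) (hG : Measurable G) :
    ∫⁻ W, G ((fun j => W (0, j)), hs 1 W) ∂(P2 a) = ∫⁻ w, ∫⁻ W, G (w, W) ∂(P2 a) ∂(P1 a) := by
  have hm : Measurable (fun W : ℕ × ℕ → ℕ => ((fun j => W (0, j)), hs 1 W)) := by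
    refine Measurable.prodMk (by fun_prop) (measurable_hs 1)
  rw [← lintegral_prod _ hG.aemeasurable, ← h2 a, lintegral_map hG hm]

theorem GB_zero (I J : ℕ → ℕ) (W : ℕ × ℕ → ℕ) (b : ℕ) :
    GB I J W 0 b = ∑ j ∈ Finset.range b, J j := by
  induction b with
  | zero => simp [GB]
  | succ b ih => rw [Finset.sum_range_succ, ← ih]; simp only [GB]

theorem bdry (h_SH1 : T_SH1) (β r : ℝ) (hr : 0 ≤ r) (Y : ℝ≥0∞)
    (hY : ∫⁻ k, ENNReal.ofReal (r ^ k) ∂(geo β) = Y) (b : ℕ) :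
    ∫⁻ J, ENNReal.ofReal (r ^ (∑ j ∈ Finset.range b, J j)) ∂(P1 β) = Y ^ b := by
  induction b with
  | zero => simp
  | succ b ih =>
    have e : ∀ J : ℕ → ℕ, ENNReal.ofReal (r ^ (∑ j ∈ Finset.range (b+1), J j)) =
        (fun x : ℕ × (ℕ → ℕ) => ENNReal.ofReal (r ^ x.1) *
          ENNReal.ofReal (r ^ (∑ j ∈ Finset.range b, x.2 j))) (J 0, fun n => J (n+1)) := by
      intro J
      simp only
      rw [Finset.sum_range_succ', ← ENNReal.ofReal_mul (by positivity), ← pow_add, add_comm]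
    have hm2 : Measurable (fun x : ℕ → ℕ => ENNReal.ofReal (r ^ (∑ j ∈ Finset.range b, x j))) := by
      have : Measurable (fun x : ℕ → ℕ => ∑ j ∈ Finset.range b, x j) := by fun_prop
      exact (measurable_nat (fun k => ENNReal.ofReal (r ^ k))).comp this
    have hm : Measurable (fun x : ℕ × (ℕ → ℕ) => ENNReal.ofReal (r ^ x.1) *
          ENNReal.ofReal (r ^ (∑ j ∈ Finset.range b, x.2 j))) := by
      have hm3 : Measurable (fun x : ℕ × (ℕ → ℕ) => ENNReal.ofReal (r ^ x.1)) :=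
        (measurable_nat (fun k => ENNReal.ofReal (r ^ k))).comp measurable_fst
      have hm4 : Measurable (fun x : ℕ × (ℕ → ℕ) =>
          ENNReal.ofReal (r ^ (∑ j ∈ Finset.range b, x.2 j))) := hm2.comp measurable_snd
      exact hm3.mul hm4
    simp only [e]
    rw [sh1 h_SH1 β _ hm]
    have e2 : ∀ k : ℕ, ∫⁻ y : ℕ → ℕ, ENNReal.ofReal (r ^ k) *
          ENNReal.ofReal (r ^ (∑ j ∈ Finset.range b, y j)) ∂(P1 β) =
        ENNReal.ofReal (r ^ k) * Y ^ b := by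
      intro k
      rw [lintegral_const_mul _ hm2, ih]
    simp only [e2]
    rw [lintegral_mul_const _ (measurable_nat _), hY, pow_succ, mul_comm]

theorem pf_MGF (h_GEO : T_GEO) (h_GEM : T_GEM) (h_SH1 : T_SH1) (h_SH2 : T_SH2) (h_COL : T_COL)
    (h_PEL : T_PEL) : T_MGF := by
  intro q α₁ α₂ hq hq1 hqa ha1 hqb hb1 a b
  have ha0 : 0 < α₁ := hq.trans hqa
  have hb0 : 0 < α₂ := hq.trans hqb
  set r : ℝ := α₂ / α₁ with hr
  set β : ℝ := q / α₂ with hβ
  have hr0 : 0 < r := div_pos hb0 ha0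
  have hβ0 : 0 < β := div_pos hq hb0
  have hβ1 : β < 1 := (div_lt_one hb0).2 hqb
  have hrβ : r * β = q / α₁ := by
    rw [hr, hβ]; field_simp
  have hrβ1 : r * β < 1 := by rw [hrβ]; exact (div_lt_one ha0).2 hqa
  set X : ℝ := (1 - α₁) / (1 - α₂) with hX
  set Y : ℝ := (1 - q / α₂) / (1 - q / α₁) with hY
  have hX0 : 0 < X := div_pos (by linarith) (by linarith)
  have hY0 : 0 < Y := div_pos (by linarith [hβ1]) (by linarith [hrβ1, hrβ])
  have hgY : ∫⁻ k, ENNReal.ofReal (r ^ k) ∂(geo β) = ENNReal.ofReal Y := by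
    rw [h_GEM β r hβ0.le hβ1 hr0.le hrβ1, hrβ]
  -- the function
  set F : (ℕ → ℕ) × (ℕ → ℕ) × (ℕ × ℕ → ℕ) → ℕ → ℝ≥0∞ :=
    fun x a => ENNReal.ofReal (r ^ (GB x.1 x.2.1 x.2.2 a b)) with hF
  have hFm : ∀ a, Measurable (fun x => F x a) := fun a =>
    (measurable_nat (fun k => ENNReal.ofReal (r ^ k))).comp (measurable_GB a b)
  have main : ∀ a : ℕ, ∫⁻ V, ∫⁻ I, ∫⁻ W, F (I, V, W) a ∂(P2 q) ∂(P1 α₁) ∂(P1 β) =
      ENNReal.ofReal (X ^ a * Y ^ b) := by
    intro a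
    induction a with
    | zero =>
      have e : ∀ I V W, F (I, V, W) 0 = ENNReal.ofReal (r ^ (∑ j ∈ Finset.range b, V j)) := by
        intro I V W
        simp only [hF, GB_zero]
      simp only [e, lintegral_const, measure_univ, mul_one]
      rw [bdry h_SH1 β r hr0.le _ hgY b, pow_zero, one_mul, ENNReal.ofReal_pow hY0.le]
    | succ a ih =>
      set Phi : (ℕ → ℕ) → ℝ≥0∞ := fun V => ∫⁻ I, ∫⁻ W, F (I, V, W) a ∂(P2 q) ∂(P1 α₁) with hPhi
      have hPhim : Measurable Phi := by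
        have h1 : Measurable (fun y : ((ℕ → ℕ) × (ℕ → ℕ)) × (ℕ × ℕ → ℕ) =>
            F (y.1.2, y.1.1, y.2) a) := (hFm a).comp (by fun_prop)
        have h2 : Measurable (fun y : (ℕ → ℕ) × (ℕ → ℕ) => ∫⁻ W, F (y.2, y.1, W) a ∂(P2 q)) :=
          h1.lintegral_prod_right'
        exact h2.lintegral_prod_right'
      have hv : Measurable (fun x : ℕ × (ℕ → ℕ) × (ℕ → ℕ) => vst x.1 x.2.1 x.2.2) :=
        measurable_vst
      have e1 : ∀ I V W, F (I, V, W) (a+1) =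
          ENNReal.ofReal (r ^ (I 0)) *
            F ((fun i => I (i+1)), vst (I 0) V (fun j => W (0, j)), hs 1 W) a := by
        intro I V W
        simp only [hF]
        rw [h_PEL, pow_add, ENNReal.ofReal_mul (by positivity)]
      -- inner integral over `I`
      have e2 : ∀ V, ∫⁻ I, ∫⁻ W, F (I, V, W) (a+1) ∂(P2 q) ∂(P1 α₁) =
          ∫⁻ H, ENNReal.ofReal (r ^ H) * ∫⁻ w, Phi (vst H V w) ∂(P1 q) ∂(geo α₁) := by
        intro V
        have e3 : ∀ I, ∫⁻ W, F (I, V, W) (a+1) ∂(P2 q) =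
            ∫⁻ w, ∫⁻ W, ENNReal.ofReal (r ^ (I 0)) *
              F ((fun i => I (i+1)), vst (I 0) V w, W) a ∂(P2 q) ∂(P1 q) := by
          intro I
          simp only [e1]
          refine sh2 h_SH2 q (fun x => ENNReal.ofReal (r ^ (I 0)) *
            F ((fun i => I (i+1)), vst (I 0) V x.1, x.2) a) ?_
          refine Measurable.const_mul ?_ _
          refine (hFm a).comp (Measurable.prodMk measurable_const (Measurable.prodMk ?_
            measurable_snd))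
          exact hv.comp (f := fun x : (ℕ → ℕ) × (ℕ × ℕ → ℕ) => (I 0, V, x.1)) (by fun_prop)
        simp only [e3]
        have hin : Measurable (fun y : ((ℕ × (ℕ → ℕ)) × (ℕ → ℕ)) × (ℕ × ℕ → ℕ) =>
            ENNReal.ofReal (r ^ y.1.1.1) * F (y.1.1.2, vst y.1.1.1 V y.1.2, y.2) a) := by
          have hn1 : Measurable (fun y : ((ℕ × (ℕ → ℕ)) × (ℕ → ℕ)) × (ℕ × ℕ → ℕ) =>
              ENNReal.ofReal (r ^ y.1.1.1)) :=
            (measurable_nat (fun k => ENNReal.ofReal (r ^ k))).comp (by fun_prop)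
          have hn2 : Measurable (fun y : ((ℕ × (ℕ → ℕ)) × (ℕ → ℕ)) × (ℕ × ℕ → ℕ) =>
              F (y.1.1.2, vst y.1.1.1 V y.1.2, y.2) a) := by
            refine (hFm a).comp (Measurable.prodMk (by fun_prop) (Measurable.prodMk ?_
              measurable_snd))
            exact hv.comp (f := fun y : ((ℕ × (ℕ → ℕ)) × (ℕ → ℕ)) × (ℕ × ℕ → ℕ) =>
              (y.1.1.1, V, y.1.2)) (by fun_prop)
          exact hn1.mul hn2
        have hin2 : Measurable (fun y : (ℕ × (ℕ → ℕ)) × (ℕ → ℕ) => ∫⁻ W,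
            ENNReal.ofReal (r ^ y.1.1) * F (y.1.2, vst y.1.1 V y.2, W) a ∂(P2 q)) :=
          hin.lintegral_prod_right'
        have hin3 : Measurable (fun y : ℕ × (ℕ → ℕ) => ∫⁻ w, ∫⁻ W,
            ENNReal.ofReal (r ^ y.1) * F (y.2, vst y.1 V w, W) a ∂(P2 q) ∂(P1 q)) :=
          hin2.lintegral_prod_right'
        rw [sh1 h_SH1 α₁ (fun y => ∫⁻ w, ∫⁻ W,
            ENNReal.ofReal (r ^ y.1) * F (y.2, vst y.1 V w, W) a ∂(P2 q) ∂(P1 q)) hin3]
        refine lintegral_congr fun H => ?_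
        rw [lintegral_lintegral_swap]
        · have hvw : Measurable (fun w => Phi (vst H V w)) := hPhim.comp
            (hv.comp (f := fun w : ℕ → ℕ => (H, V, w)) (by fun_prop))
          rw [← lintegral_const_mul _ hvw]
          refine lintegral_congr fun w => ?_
          simp only [hPhi]
          have hm1 : ∀ I, Measurable (fun W => F (I, vst H V w, W) a) := fun I =>
            (hFm a).comp (by fun_prop)
          have hm2 : Measurable (fun I => ∫⁻ W, F (I, vst H V w, W) a ∂(P2 q)) := by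
            have : Measurable (fun y : (ℕ → ℕ) × (ℕ × ℕ → ℕ) => F (y.1, vst H V w, y.2) a) :=
              (hFm a).comp (by fun_prop)
            exact this.lintegral_prod_right'
          rw [← lintegral_const_mul _ hm2]
          refine lintegral_congr fun I => ?_
          rw [lintegral_const_mul _ (hm1 I)]
        · have : Measurable (fun y : (ℕ → ℕ) × (ℕ → ℕ) => ∫⁻ W,
              ENNReal.ofReal (r ^ H) * F (y.1, vst H V y.2, W) a ∂(P2 q)) :=
            hin2.comp (g := fun y : (ℕ × (ℕ → ℕ)) × (ℕ → ℕ) => ∫⁻ W,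
              ENNReal.ofReal (r ^ y.1.1) * F (y.1.2, vst y.1.1 V y.2, W) a ∂(P2 q))
              (f := fun y : (ℕ → ℕ) × (ℕ → ℕ) => ((H, y.1), y.2)) (by fun_prop)
          exact this.aemeasurable
      simp only [e2]
      -- swap `V` and `H`
      have hPv : Measurable (fun x : ((ℕ → ℕ) × ℕ) × (ℕ → ℕ) => Phi (vst x.1.2 x.1.1 x.2)) :=
        hPhim.comp (hv.comp (f := fun x : ((ℕ → ℕ) × ℕ) × (ℕ → ℕ) => (x.1.2, x.1.1, x.2))
          (by fun_prop))
      have hPv2 : Measurable (fun x : (ℕ → ℕ) × ℕ => ∫⁻ w, Phi (vst x.2 x.1 w) ∂(P1 q)) :=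
        hPv.lintegral_prod_right'
      rw [lintegral_lintegral_swap]
      · have e4 : ∀ H, ∫⁻ V, ENNReal.ofReal (r ^ H) * ∫⁻ w, Phi (vst H V w) ∂(P1 q) ∂(P1 β) =
            ENNReal.ofReal (r ^ H) * ∫⁻ V, ∫⁻ w, Phi (vst H V w) ∂(P1 q) ∂(P1 β) := by
          intro H
          have hmH : Measurable (fun V : ℕ → ℕ => ∫⁻ w, Phi (vst H V w) ∂(P1 q)) :=
            hPv2.comp (g := fun x : (ℕ → ℕ) × ℕ =>
              ∫⁻ w, Phi (vst x.2 x.1 w) ∂(P1 q)) (f := fun V : ℕ → ℕ => (V, H)) (by fun_prop)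
          rw [lintegral_const_mul _ hmH]
        simp only [e4]
        rw [hr, h_GEO α₁ α₂ ha0 ha1 hb0 hb1]
        have hq' : α₂ * β = q := by rw [hβ]; field_simp
        have e5 : ∫⁻ H, ∫⁻ V, ∫⁻ w, Phi (vst H V w) ∂(P1 q) ∂(P1 β) ∂(geo α₂) =
            ∫⁻ V, Phi V ∂(P1 β) := by
          have hc := h_COL α₂ β hb0 hb1 hβ0 hβ1
          rw [hq'] at hc
          conv_rhs => rw [← hc]
          have hPc : Measurable (fun x : ℕ × (ℕ → ℕ) × (ℕ → ℕ) => Phi (vst x.1 x.2.1 x.2.2)) :=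
            hPhim.comp hv
          rw [lintegral_map hPhim hv, lintegral_prod _ hPc.aemeasurable]
          refine lintegral_congr fun H => ?_
          exact (lintegral_prod (fun y : (ℕ → ℕ) × (ℕ → ℕ) => Phi (vst H y.1 y.2))
            (hPc.comp (g := fun x : ℕ × (ℕ → ℕ) × (ℕ → ℕ) => Phi (vst x.1 x.2.1 x.2.2))
              (f := fun y : (ℕ → ℕ) × (ℕ → ℕ) => (H, y)) (by fun_prop)).aemeasurable).symm
        rw [e5]
        have e6 : ∫⁻ V, Phi V ∂(P1 β) = ENNReal.ofReal (X ^ a * Y ^ b) := ih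
        rw [e6, ← ENNReal.ofReal_mul (by positivity)]
        congr 1
        rw [← hX, pow_succ]; ring
      · have : Measurable (fun x : (ℕ → ℕ) × ℕ => ENNReal.ofReal (r ^ x.2) *
            ∫⁻ w, Phi (vst x.2 x.1 w) ∂(P1 q)) := by
          have hn1 : Measurable (fun x : (ℕ → ℕ) × ℕ => ENNReal.ofReal (r ^ x.2)) :=
            (measurable_nat (fun k => ENNReal.ofReal (r ^ k))).comp measurable_snd
          exact hn1.mul hPv2
        exact this.aemeasurable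
  rw [← main a, PB, lintegral_prod _ (hFm a).aemeasurable]
  have e8 : ∀ I, ∫⁻ y : (ℕ → ℕ) × (ℕ × ℕ → ℕ), F (I, y) a ∂((P1 β).prod (P2 q)) =
      ∫⁻ V, ∫⁻ W, F (I, V, W) a ∂(P2 q) ∂(P1 β) := by
    intro I
    exact lintegral_prod _ ((hFm a).comp (g := fun x => F x a)
      (f := fun y : (ℕ → ℕ) × (ℕ × ℕ → ℕ) => (I, y)) (by fun_prop)).aemeasurable
  simp only [hF] at e8 ⊢
  simp only [e8]
  rw [lintegral_lintegral_swap]
  have h1 : Measurable (fun y : ((ℕ → ℕ) × (ℕ → ℕ)) × (ℕ × ℕ → ℕ) =>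
      ENNReal.ofReal (r ^ (GB y.1.1 y.1.2 y.2 a b))) := (hFm a).comp (g := fun x => F x a)
        (f := fun y : ((ℕ → ℕ) × (ℕ → ℕ)) × (ℕ × ℕ → ℕ) => (y.1.1, y.1.2, y.2)) (by fun_prop)
  have h2 : Measurable (fun y : (ℕ → ℕ) × (ℕ → ℕ) => ∫⁻ W,
      ENNReal.ofReal (r ^ (GB y.1 y.2 W a b)) ∂(P2 q)) := h1.lintegral_prod_right'
  exact h2.aemeasurable

end Pool.Agent.H26.GL
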